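import Pool.Agent.Helper89.EX.Defs
import Pool.Agent.Helper8.EX.EM

/-!
# MP_5176ab_co: module EB, embedding in a box
-/

set_option autoImplicit false

namespace EX

open Finset SimpleGraph Filter Topology

open scoped Classical

noncomputable section

theorem embed_box {U V : Type} [Fintype U] (k : ℕ) (hk : 2 ≤ k) (H : Finset (Finset V))
    (hH : ∀ E ∈ H, E.card = k + 1) (G : SimpleGraph U) (Y : Fin k → Finset V)
    (hd : ∀ l l', l ≠ l' → Disjoint (Y l) (Y l'))
    (hY : ∀ l, Fintype.card U + G.edgeFinset.card ≤ (Y l).card) (W : Set V)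
    (hW : ∀ l, ∀ y ∈ Y l, y ∉ W) (I : Finset U) (ψ : U → Fin k)
    (hψ : ∀ u v, u ∉ I → v ∉ I → G.Adj u v → ψ u ≠ ψ v) (φ : U → V)
    (hφ : Function.Injective φ) (hφ1 : ∀ u ∈ I, φ u ∈ W) (hφ2 : ∀ u, u ∉ I → φ u ∈ Y (ψ u))
    (Q : Finset (Sym2 U)) (hQ : ∀ e ∈ Q, e ∈ G.edgeSet ∧ ∀ u ∈ e, u ∉ I) (χ : Sym2 U → V)
    (hχ1 : ∀ e ∈ Q, χ e ∈ W) (hχ2 : ∀ e ∈ Q, ∀ e' ∈ Q, χ e = χ e' → e = e')
    (hχ3 : ∀ e ∈ Q, ∀ u, χ e ≠ φ u)
    (hχ4 : ∀ e ∈ Q, ∀ x, Box Y x → (∀ u ∈ e, x (ψ u) = φ u) →
      insert (χ e) (univ.image x) ∈ H)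
    (hr : ∀ u v, G.Adj u v → s(u, v) ∉ Q → Rich (sN k G) H (φ u) (φ v)) :
    Contains H (expansion (k + 1) G) := by
  rcases Q.eq_empty_or_nonempty with hQe | ⟨e₀, he₀⟩
  · refine embed k (by omega) H hH G φ hφ Q (fun e he => (hQ e he).1) (fun _ => ∅) ?_ ?_ ?_ hr
    all_goals
      rw [hQe]
      intro e he
      exact absurd he (notMem_empty e)
  -- fresh vertices
  have hz : ∀ l : Fin k, ∃ z : Sym2 U → V, (∀ e ∈ Q, z e ∈ Y l ∧ ∀ u, z e ≠ φ u) ∧
      ∀ e ∈ Q, ∀ e' ∈ Q, z e = z e' → e = e' := by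
    intro l
    set A : Finset V := Y l \ univ.image φ with hA
    have hQc : Q.card ≤ G.edgeFinset.card := by
      apply card_le_card
      intro e he
      rw [mem_edgeFinset]
      exact (hQ e he).1
    have hAc : Q.card ≤ A.card := by
      have h1 : (Y l).card - (univ.image φ).card ≤ A.card := le_card_sdiff _ _
      have h2 : (univ.image φ).card ≤ Fintype.card U := by
        refine card_image_le.trans ?_
        rw [card_univ]
      have h3 := hY l
      omega
    have hne : Nonempty (Q ↪ A) := by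
      apply Function.Embedding.nonempty_of_card_le
      rwa [Fintype.card_coe, Fintype.card_coe]
    obtain ⟨g⟩ := hne
    refine ⟨fun e => if h : e ∈ Q then (g ⟨e, h⟩ : V) else (g ⟨e₀, he₀⟩ : V), ?_, ?_⟩
    · intro e he
      simp only [dif_pos he]
      have hmem : ∀ a : V, a ∈ A → a ∈ Y l ∧ ∀ u, a ≠ φ u := by
        intro a ha
        rw [hA, Finset.mem_sdiff, Finset.mem_image] at ha
        exact ⟨ha.1, fun u hu => ha.2 ⟨u, mem_univ _, hu.symm⟩⟩
      exact hmem _ (g ⟨e, he⟩).2
    · intro e he e' he' h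
      simp only [dif_pos he, dif_pos he'] at h
      have := g.injective (Subtype.ext h)
      exact congrArg Subtype.val this
  choose z hz1 hz2 using hz
  -- the points of the box
  set x : Sym2 U → Fin k → V := fun e l =>
    if h : ∃ u, u ∈ e ∧ ψ u = l then φ h.choose else z l e with hx
  have huniq : ∀ e ∈ Q, ∀ u ∈ e, ∀ v ∈ e, ψ u = ψ v → u = v := by
    intro e he u hu v hv huv
    by_contra hne
    have he' : e = s(u, v) := (Sym2.mem_and_mem_iff hne).1 ⟨hu, hv⟩
    have hadj : G.Adj u v := by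
      have := (hQ e he).1
      rwa [he', mem_edgeSet] at this
    exact hψ u v ((hQ e he).2 u hu) ((hQ e he).2 v hv) hadj huv
  have hx1 : ∀ e ∈ Q, ∀ u ∈ e, x e (ψ u) = φ u := by
    intro e he u hu
    have h : ∃ v, v ∈ e ∧ ψ v = ψ u := ⟨u, hu, rfl⟩
    rw [hx]
    simp only
    rw [dif_pos h, huniq e he _ h.choose_spec.1 u hu h.choose_spec.2]
  have hx2 : ∀ e l, (∃ u ∈ e, ψ u = l ∧ x e l = φ u) ∨ x e l = z l e := by
    intro e l
    by_cases h : ∃ u, u ∈ e ∧ ψ u = l
    · left
      refine ⟨h.choose, h.choose_spec.1, h.choose_spec.2, ?_⟩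
      rw [hx]
      simp only
      rw [dif_pos h]
    · right
      rw [hx]
      simp only
      rw [dif_neg h]
  have hbox : ∀ e ∈ Q, Box Y (x e) := by
    intro e he l
    rcases hx2 e l with ⟨u, hu, rfl, h2⟩ | h
    · rw [h2]
      exact hφ2 u ((hQ e he).2 u hu)
    · rw [h]
      exact (hz1 l e he).1
  refine embed k (by omega) H hH G φ hφ Q (fun e he => (hQ e he).1)
    (fun e => insert (χ e) (univ.image (x e))) ?_ ?_ ?_ hr
  · intro e he
    exact hχ4 e he (x e) (hbox e he) (hx1 e he)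
  · intro e he u
    rw [mem_insert, mem_image]
    constructor
    · rintro (h | ⟨l, -, h⟩)
      · exact absurd h.symm (hχ3 e he u)
      · rcases hx2 e l with ⟨v, hv, -, h2⟩ | h2
        · rw [h2] at h
          rwa [← hφ h]
        · rw [h2] at h
          exact absurd h ((hz1 l e he).2 u)
    · intro hu
      exact Or.inr ⟨ψ u, mem_univ _, hx1 e he u hu⟩
  · intro e he e' he' hne v hv hv'
    rw [mem_insert, mem_image] at hv hv'
    rcases hv with rfl | ⟨l, -, rfl⟩
    · rcases hv' with h | ⟨l, -, h⟩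
      · exact absurd (hχ2 e he e' he' h) hne
      · exfalso
        apply hW l _ (hbox e' he' l)
        rw [h]
        exact hχ1 e he
    · rcases hv' with h | ⟨l', -, h⟩
      · exfalso
        apply hW l _ (hbox e he l)
        rw [h]
        exact hχ1 e' he'
      · have hll : l = l' := by
          by_contra hll
          have h1 := hbox e he l
          have h2 := hbox e' he' l'
          rw [h] at h2
          exact disjoint_left.1 (hd l l' hll) h1 h2
        subst hll
        rcases hx2 e l with ⟨u, hu, -, h2⟩ | h2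
        · exact ⟨u, h2.symm⟩
        · rcases hx2 e' l with ⟨u, hu, -, h3⟩ | h3
          · exact ⟨u, by rw [← h, h3]⟩
          · exfalso
            apply hne
            apply hz2 l e he e' he'
            rw [← h2, ← h3, h]

end

end EX
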