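import Pool.Agent.Helper89.EX.Defs

/-!
# MP_5176ab_co: module JS, the structure of `J`
-/

set_option autoImplicit false

namespace EX

open Finset SimpleGraph Filter Topology

open scoped Classical

noncomputable section

theorem JS_mem_agr {r : ℕ} {V : Type} (e e' : Fin r → V) (i : Fin r) :
    i ∈ agr e e' ↔ e i = e' i := by
  unfold agr
  rw [Finset.mem_filter]
  exact ⟨fun h => h.2, fun h => ⟨mem_univ _, h⟩⟩

/-- a petal that avoids a given tuple outside of the kernel -/
theorem JS_pick {r : ℕ} {V : Type} {T : Finset (Fin r → V)} {A : Finset (Fin r)}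
    (hT : ∀ t ∈ T, ∀ t' ∈ T, t ≠ t' → agr t t' = A) (g : Fin r → V) (hs : r < T.card) :
    ∃ t ∈ T, ∀ i, i ∉ A → t i ≠ g i := by
  by_contra hcon
  push Not at hcon
  have hne : Nonempty (Fin r) := by
    obtain ⟨t, ht⟩ := card_pos.1 (lt_of_le_of_lt (Nat.zero_le r) hs)
    obtain ⟨i, -, -⟩ := hcon t ht
    exact ⟨i⟩
  choose! f hf1 hf2 using hcon
  have hc : (univ : Finset (Fin r)).card < T.card := by
    rwa [card_univ, Fintype.card_fin]
  obtain ⟨t, ht, t', ht', hne, heq⟩ :=
    exists_ne_map_eq_of_card_lt_of_maps_to (f := f) hc (fun t _ => mem_univ (f t))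
  apply hf1 t ht
  rw [← hT t ht t' ht' hne, JS_mem_agr, hf2 t ht, heq, hf2 t' ht']

theorem Hom.inter_mem {r s : ℕ} {V : Type} {F : Finset (Fin r → V)}
    {J : Finset (Finset (Fin r))} (h : Hom s F J) (hs : 2 * r < s) (hF : F.Nonempty)
    {A A' : Finset (Fin r)} (hA : A ∈ J) (hA' : A' ∈ J) : A ∩ A' ∈ J := by
  obtain ⟨e, he⟩ := hF
  obtain ⟨T, hTF, hTs, hT1, hT2⟩ := h.ker e he A hA
  obtain ⟨T', hTF', hTs', hT1', hT2'⟩ := h.ker e he A' hA'
  obtain ⟨t, ht, ht2⟩ := JS_pick hT2 e (by omega)
  obtain ⟨t', ht', ht2'⟩ := JS_pick hT2' t (by omega)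
  have hagr : agr t t' = A ∩ A' := by
    ext i
    rw [JS_mem_agr, Finset.mem_inter]
    constructor
    · intro hi
      have hi' : i ∈ A' := by
        by_contra hcon
        exact ht2' i hcon hi.symm
      refine ⟨?_, hi'⟩
      by_contra hcon
      apply ht2 i hcon
      rw [hi, hT1' t' ht' i hi']
    · rintro ⟨h1, h2⟩
      rw [hT1 t ht i h1, hT1' t' ht' i h2]
  have hne : t ≠ t' := by
    rintro rfl
    apply h.proper
    have h1 : (univ : Finset (Fin r)) ⊆ A := by
      intro i _
      have h2 : i ∈ agr t t := (JS_mem_agr t t i).2 rfl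
      rw [hagr, Finset.mem_inter] at h2
      exact h2.1
    rwa [← Finset.univ_subset_iff.1 h1]
  rw [← hagr]
  exact h.inter t (hTF ht) t' (hTF' ht') hne

theorem Hom.mem_J {r s : ℕ} {V : Type} {F : Finset (Fin r → V)}
    {J : Finset (Finset (Fin r))} (h : Hom s F J) (hr : 2 ≤ r) (hs : 2 * r < s)
    (hF : F.Nonempty) (hcov : Cov J) {Y : Finset (Fin r)} (hY : Y ≠ univ)
    (hB : (own J \ Y).card ≠ 1) : Y ∈ J := by
  have hZ : ∀ a ∈ univ \ Y, ∃ Z ∈ J, Y ⊆ Z ∧ a ∉ Z := by
    intro a ha
    have haY : a ∉ Y := (Finset.mem_sdiff.1 ha).2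
    by_cases hown : univ.erase a ∈ J
    · refine ⟨_, hown, ?_, notMem_erase a univ⟩
      intro i hi
      rw [Finset.mem_erase]
      exact ⟨fun hia => haY (hia ▸ hi), mem_univ _⟩
    · have haown : a ∈ own J := by
        unfold own
        rw [Finset.mem_filter]
        exact ⟨mem_univ _, hown⟩
      have hmem : a ∈ own J \ Y := Finset.mem_sdiff.2 ⟨haown, haY⟩
      obtain ⟨b, hb, hba⟩ : ∃ b ∈ own J \ Y, b ≠ a := by
        have h1 : 1 < (own J \ Y).card := by
          have h2 : 0 < (own J \ Y).card := card_pos.2 ⟨a, hmem⟩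
          omega
        exact exists_mem_ne h1 a
      rw [Finset.mem_sdiff] at hb
      have hbown : univ.erase b ∉ J := by
        have := hb.1
        unfold own at this
        exact (Finset.mem_filter.1 this).2
      set Z : Finset (Fin r) := (univ.erase a).erase b with hZd
      have hZc : Z.card + 2 = r := by
        have h1 : b ∈ univ.erase a := Finset.mem_erase.2 ⟨hba, mem_univ _⟩
        have h2 : Z.card = (univ.erase a).card - 1 := card_erase_of_mem h1
        have h3 : (univ.erase a).card = r - 1 := by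
          rw [card_erase_of_mem (mem_univ a), card_univ, Fintype.card_fin]
        omega
      obtain ⟨A', hA', hsub⟩ := hcov Z hZc
      have hZmem : ∀ i, i ∈ Z ↔ i ≠ a ∧ i ≠ b := by
        intro i
        rw [hZd, Finset.mem_erase, Finset.mem_erase]
        constructor
        · rintro ⟨h1, h2, -⟩
          exact ⟨h2, h1⟩
        · rintro ⟨h1, h2⟩
          exact ⟨h2, h1, mem_univ _⟩
      have haA : a ∉ A' := by
        intro ha1
        by_cases hb1 : b ∈ A'
        · apply h.proper
          have : A' = univ := by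
            rw [← Finset.univ_subset_iff]
            intro i _
            by_cases h1 : i = a
            · rwa [h1]
            · by_cases h2 : i = b
              · rwa [h2]
              · exact hsub ((hZmem i).2 ⟨h1, h2⟩)
          rwa [← this]
        · apply hbown
          have : A' = univ.erase b := by
            ext i
            rw [Finset.mem_erase]
            constructor
            · intro hi
              exact ⟨fun hib => hb1 (hib ▸ hi), mem_univ _⟩
            · rintro ⟨hib, -⟩
              by_cases h1 : i = a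
              · rwa [h1]
              · exact hsub ((hZmem i).2 ⟨h1, hib⟩)
          rwa [← this]
      refine ⟨A', hA', ?_, haA⟩
      intro i hi
      apply hsub
      rw [hZmem]
      exact ⟨fun h1 => haY (h1 ▸ hi), fun h1 => hb.2 (h1 ▸ hi)⟩
  choose! Z hZ1 hZ2 hZ3 using hZ
  have hX : (univ \ Y).Nonempty := by
    by_contra hcon
    rw [not_nonempty_iff_eq_empty, sdiff_eq_empty_iff_subset, Finset.univ_subset_iff] at hcon
    exact hY hcon
  have hmem : (univ \ Y).inf' hX Z ∈ J :=
    inf'_induction hX Z (p := fun A => A ∈ J) (fun A hA A' hA' => h.inter_mem hs hF hA hA') hZ1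
  have hYeq : (univ \ Y).inf' hX Z = Y := by
    apply le_antisymm
    · intro i hi
      by_contra hcon
      have h1 : i ∈ univ \ Y := Finset.mem_sdiff.2 ⟨mem_univ _, hcon⟩
      have h2 : (univ \ Y).inf' hX Z ≤ Z i := inf'_le Z h1
      exact hZ3 i h1 (h2 hi)
    · apply le_inf'
      intro a ha
      exact hZ2 a ha
  rwa [hYeq] at hmem

theorem Hom.card_le {r s n : ℕ} (hr : 2 ≤ r) {F : Finset (Fin r → Fin n)}
    {J : Finset (Finset (Fin r))} (h : Hom s F J) (hcov : ¬ Cov J) :
    F.card ≤ n ^ (r - 2) := by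
  unfold Cov at hcov
  push Not at hcov
  obtain ⟨A, hAc, hA⟩ := hcov
  have h1 : F.card ≤ Fintype.card (A → Fin n) := by
    rw [← card_univ]
    apply card_le_card_of_injOn (fun e => fun i : A => e i) (fun e _ => mem_univ _)
    intro e he e' he' hee
    by_contra hne
    apply hA _ (h.inter e he e' he' hne)
    intro i hi
    rw [JS_mem_agr]
    exact congrFun hee ⟨i, hi⟩
  rw [Fintype.card_fun, Fintype.card_fin, Fintype.card_coe] at h1
  rwa [show r - 2 = A.card by omega]

end

end EX
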